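import Mathlib
import Pool.Agent.L0h46.TS.Defs

/-!
# Project TS: toolkit (binary forms attached to polynomials, `p`-integral equations)
-/

set_option autoImplicit false

namespace Pool.Agent.L0h81.TS

open Finset
open Pool.Agent.L0h46.TS (hom lpol qpol Surf Qg Gd FP FE wt HE PInt locMin Iso IrrQ)
open Pool.Agent.L0h46.TQ (Lf)

/-! ### binary forms -/

section

open Polynomial

lemma hom_ne {g : ℤ[X]} {d : ℕ} (hg : g.natDegree ≤ d) {x : ℤ × ℤ} (hx : x.2 ≠ 0) :
    (hom g d x : ℚ) = (x.2 : ℚ) ^ d * aeval ((x.1 : ℚ) / x.2) g := by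
  have hx' : (x.2 : ℚ) ≠ 0 := by exact_mod_cast hx
  rw [aeval_eq_sum_range' (Nat.lt_succ_of_le hg), mul_sum]
  unfold hom
  push_cast
  refine sum_congr rfl fun j hj => ?_
  obtain ⟨i, rfl⟩ : ∃ i, d = j + i := ⟨d - j, by
    have := mem_range.1 hj
    omega⟩
  rw [Nat.add_sub_cancel_left, zsmul_eq_mul, div_pow, pow_add]
  field_simp

lemma hom_zero {g : ℤ[X]} {d : ℕ} {x : ℤ × ℤ} (hx : x.2 = 0) :
    hom g d x = g.coeff d * x.1 ^ d := by
  unfold hom
  rw [sum_range_succ, sum_eq_zero, zero_add, Nat.sub_self, pow_zero, mul_one]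
  intro j hj
  have := mem_range.1 hj
  rw [hx, zero_pow (by omega), mul_zero]

lemma hom_mul {g h : ℤ[X]} {d d' : ℕ} (hg : g.natDegree ≤ d) (hh : h.natDegree ≤ d')
    (x : ℤ × ℤ) : hom (g * h) (d + d') x = hom g d x * hom h d' x := by
  by_cases hx : x.2 = 0
  · rw [hom_zero hx, hom_zero hx, hom_zero hx, coeff_mul_add_eq_of_natDegree_le hg hh]
    ring
  · have : ((hom (g * h) (d + d') x : ℤ) : ℚ) = ((hom g d x * hom h d' x : ℤ) : ℚ) := by
      push_cast
      rw [hom_ne (natDegree_mul_le_of_le hg hh) hx, hom_ne hg hx, hom_ne hh hx, map_mul, pow_add]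
      ring
    exact_mod_cast this

lemma hom_one (x : ℤ × ℤ) : hom 1 0 x = 1 := by
  simp [hom]

lemma hom_pow {g : ℤ[X]} {d : ℕ} (hg : g.natDegree ≤ d) (x : ℤ × ℤ) (n : ℕ) :
    hom (g ^ n) (n * d) x = hom g d x ^ n := by
  induction n with
  | zero => rw [pow_zero, pow_zero, zero_mul, hom_one]
  | succ n ih =>
    rw [pow_succ, pow_succ, add_mul, one_mul, hom_mul (natDegree_pow_le_of_le n hg) hg, ih]

lemma hom_prod {ι : Type} (s : Finset ι) (g : ι → ℤ[X]) (d : ι → ℕ)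
    (h : ∀ i ∈ s, (g i).natDegree ≤ d i) (x : ℤ × ℤ) :
    (∏ i ∈ s, g i).natDegree ≤ ∑ i ∈ s, d i ∧
      hom (∏ i ∈ s, g i) (∑ i ∈ s, d i) x = ∏ i ∈ s, hom (g i) (d i) x := by
  classical
  induction s using Finset.induction_on with
  | empty => simp [hom_one]
  | insert a s ha ih =>
    obtain ⟨h1, h2⟩ := ih (fun i hi => h i (mem_insert_of_mem hi))
    have h3 := h a (mem_insert_self _ _)
    rw [prod_insert ha, sum_insert ha, prod_insert ha]
    exact ⟨natDegree_mul_le_of_le h3 h1, by rw [hom_mul h3 h1, h2]⟩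

lemma hom_sub (g h : ℤ[X]) (d : ℕ) (x : ℤ × ℤ) : hom (g - h) d x = hom g d x - hom h d x := by
  unfold hom
  rw [← sum_sub_distrib]
  refine sum_congr rfl fun j _ => ?_
  rw [coeff_sub]
  ring

lemma hom_add (g h : ℤ[X]) (d : ℕ) (x : ℤ × ℤ) : hom (g + h) d x = hom g d x + hom h d x := by
  unfold hom
  rw [← sum_add_distrib]
  refine sum_congr rfl fun j _ => ?_
  rw [coeff_add]
  ring

lemma hom_C (c : ℤ) (d : ℕ) (x : ℤ × ℤ) : hom (C c) d x = c * x.2 ^ d := by
  unfold hom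
  rw [sum_eq_single_of_mem 0 (mem_range.2 (Nat.succ_pos d))]
  · simp
  · intro j _ hj
    rw [coeff_C_of_ne_zero hj]
    simp

lemma lpol_deg (a : ℤ × ℤ) : (lpol a).natDegree ≤ 1 := by
  unfold lpol
  compute_degree

lemma qpol_deg (g : ℤ × ℤ × ℤ) : (qpol g).natDegree ≤ 2 := by
  unfold qpol
  compute_degree

lemma hom_lpol (a x : ℤ × ℤ) : hom (lpol a) 1 x = Lf a x := by
  unfold hom lpol Lf
  rw [sum_range_succ, sum_range_succ, range_zero, sum_empty]
  simp only [coeff_sub, coeff_C_mul, coeff_X_zero, coeff_X_one, coeff_C_zero,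
    coeff_C_of_ne_zero one_ne_zero]
  ring

lemma hom_qpol (g : ℤ × ℤ × ℤ) (x : ℤ × ℤ) : hom (qpol g) 2 x = Qg g x := by
  unfold hom qpol Qg
  rw [sum_range_succ, sum_range_succ, sum_range_succ, range_zero, sum_empty]
  simp only [coeff_add, coeff_C_mul, coeff_X_zero, coeff_X_one, coeff_C_zero, coeff_X_pow,
    coeff_X_of_ne_one (show (2 : ℕ) ≠ 1 by norm_num),
    coeff_C_of_ne_zero one_ne_zero, coeff_C_of_ne_zero two_ne_zero]
  norm_num
  ring

variable {k m n : ℕ} {A B : ℤ[X]} {α : Fin k → ℤ × ℤ} {γ : Fin m → ℤ × ℤ × ℤ} {e : Fin k → ℕ}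
  {f : Fin m → ℕ} {c : ℤ}

/-- the product of the powers of the forms, with sign -/
def PE (α : Fin k → ℤ × ℤ) (γ : Fin m → ℤ × ℤ × ℤ) (e : Fin k → ℕ) (f : Fin m → ℕ)
    (x : ℤ × ℤ) : ℤ := (∏ i, Lf (α i) x ^ e i) * ∏ j, Qg (γ j) x ^ f j

lemma PE_natAbs (x : ℤ × ℤ) : (PE α γ e f x).natAbs = FE α γ e f x := by
  unfold PE FE
  rw [Int.natAbs_mul]
  congr 1
  · rw [show (∏ i, Lf (α i) x ^ e i).natAbs = Int.natAbsHom (∏ i, Lf (α i) x ^ e i) from rfl,
      map_prod]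
    exact prod_congr rfl fun i _ => Int.natAbs_pow _ _
  · rw [show (∏ j, Qg (γ j) x ^ f j).natAbs = Int.natAbsHom (∏ j, Qg (γ j) x ^ f j) from rfl,
      map_prod]
    exact prod_congr rfl fun i _ => Int.natAbs_pow _ _

/-- the homogeneous form of the factorisation -/
theorem key (hS : Surf n A B α γ e f c) (x : ℤ × ℤ) :
    hom A (4 * n) x ^ 3 - hom B (6 * n) x ^ 2 = c * PE α γ e f x := by
  have h1 : hom (A ^ 3 - B ^ 2) (12 * n) x = hom A (4 * n) x ^ 3 - hom B (6 * n) x ^ 2 := by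
    rw [hom_sub, ← hom_pow hS.dA, ← hom_pow hS.dB, show 3 * (4 * n) = 12 * n by ring,
      show 2 * (6 * n) = 12 * n by ring]
  obtain ⟨p1, p2⟩ := hom_prod univ (fun i => lpol (α i) ^ e i) (fun i => e i * 1)
    (fun i _ => natDegree_pow_le_of_le _ (lpol_deg _)) x
  obtain ⟨q1, q2⟩ := hom_prod univ (fun j => qpol (γ j) ^ f j) (fun j => f j * 2)
    (fun j _ => natDegree_pow_le_of_le _ (qpol_deg _)) x
  have hw : 12 * n = (0 + ∑ i, e i * 1) + ∑ j, f j * 2 := by
    rw [← hS.deg, wt, zero_add, mul_sum]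
    simp only [mul_one, mul_comm 2]
  have hC : (C c : ℤ[X]).natDegree ≤ 0 := by simp
  have h2 : hom (C c * (∏ i, lpol (α i) ^ e i) * ∏ j, qpol (γ j) ^ f j) (12 * n) x =
      c * PE α γ e f x := by
    rw [hw, hom_mul (natDegree_mul_le_of_le hC p1) q1, hom_mul hC p1, p2, q2, hom_C, pow_zero,
      mul_one]
    unfold PE
    rw [mul_assoc]
    congr 2
    · refine prod_congr rfl fun i _ => ?_
      rw [hom_pow (lpol_deg _), hom_lpol]
    · refine prod_congr rfl fun j _ => ?_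
      rw [hom_pow (qpol_deg _), hom_qpol]
  rw [← h1, hS.fac, h2]

/-- the discriminant -/
theorem HE_disc (hS : Surf n A B α γ e f c) (x : ℤ × ℤ) :
    (HE A B n x).Δ = ((1259712 * c * PE α γ e f x : ℤ) : ℚ) := by
  have h := key hS x
  have h' : (hom A (4 * n) x : ℚ) ^ 3 - (hom B (6 * n) x : ℚ) ^ 2 = c * (PE α γ e f x : ℚ) := by
    exact_mod_cast h
  push_cast
  unfold HE
  simp only [WeierstrassCurve.Δ, WeierstrassCurve.b₂, WeierstrassCurve.b₄, WeierstrassCurve.b₆,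
    WeierstrassCurve.b₈]
  linear_combination 1259712 * h'

lemma PE_ne {x : ℤ × ℤ} (hx : FP α γ x ≠ 0) : PE α γ e f x ≠ 0 := by
  unfold FP at hx
  unfold PE
  have h1 := left_ne_zero_of_mul hx
  have h2 := right_ne_zero_of_mul hx
  rw [prod_ne_zero_iff] at h1 h2
  exact mul_ne_zero (prod_ne_zero_iff.2 fun i hi => pow_ne_zero _ (h1 i hi))
    (prod_ne_zero_iff.2 fun i hi => pow_ne_zero _ (h2 i hi))

lemma FE_ne {x : ℤ × ℤ} (hx : FP α γ x ≠ 0) : FE α γ e f x ≠ 0 := by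
  rw [← PE_natAbs, Int.natAbs_ne_zero]
  exact PE_ne hx

end

/-! ### `p`-integral numbers -/

section

variable (p : ℕ) [hp : Fact p.Prime]

/-- `p`-integral rational numbers -/
lemma int_iff (q : ℚ) : padicNorm p q ≤ 1 ↔ ¬ p ∣ q.den := by
  have hq : q = q.num / (q.den : ℤ) := by
    exact_mod_cast (Rat.num_div_den q).symm
  have hden : (q.den : ℤ) ≠ 0 := by exact_mod_cast q.den_ne_zero
  have h1 : padicNorm p q = padicNorm p q.num / padicNorm p (q.den : ℤ) := by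
    nth_rw 1 [hq]
    rw [padicNorm.div]
  constructor
  · intro h hd
    have h2 : padicNorm p (q.den : ℤ) < 1 := by
      rw [padicNorm.int_lt_one_iff]
      exact_mod_cast hd
    have h3 : padicNorm p q.num = 1 := by
      rw [padicNorm.int_eq_one_iff]
      intro h4
      have h5 : p ∣ Nat.gcd q.num.natAbs q.den :=
        Nat.dvd_gcd (Int.natCast_dvd.1 h4) hd
      rw [q.reduced] at h5
      exact hp.out.one_lt.ne' (Nat.dvd_one.1 h5)
    have h4 : 0 < padicNorm p (q.den : ℤ) :=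
      lt_of_le_of_ne (padicNorm.nonneg _) (padicNorm.nonzero (by exact_mod_cast hden)).symm
    rw [h1, h3, div_le_one h4] at h
    linarith
  · intro h
    have h2 : padicNorm p (q.den : ℤ) = 1 := by
      rw [padicNorm.int_eq_one_iff]
      exact_mod_cast h
    rw [h1, h2, div_one]
    exact padicNorm.of_int _

lemma norm_lb (z : ℤ) (hz : z ≠ 0) : 1 / (z.natAbs : ℚ) ≤ padicNorm p z := by
  have hz' : (z : ℚ) ≠ 0 := by exact_mod_cast hz
  rw [padicNorm.eq_zpow_of_nonzero hz', padicValRat.of_int, zpow_neg, zpow_natCast, one_div]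
  have h1 : p ^ padicValInt p z ∣ z.natAbs := by
    rw [padicValInt]
    exact pow_padicValNat_dvd
  have h2 : p ^ padicValInt p z ≤ z.natAbs := Nat.le_of_dvd (Int.natAbs_pos.2 hz) h1
  have h3 : (0 : ℚ) < (p : ℚ) ^ padicValInt p z := by
    have : (0 : ℚ) < p := by exact_mod_cast hp.out.pos
    positivity
  have h4 : ((p : ℚ) ^ padicValInt p z) ≤ z.natAbs := by exact_mod_cast h2
  exact inv_anti₀ h3 h4

/-- the norm of a nonzero number -/
lemma norm_val {q : ℚ} (hq : q ≠ 0) : padicNorm p q = (p : ℚ) ^ (-padicValRat p q) :=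
  padicNorm.eq_zpow_of_nonzero hq

lemma norm_le_iff {q q' : ℚ} (hq : q ≠ 0) (hq' : q' ≠ 0) :
    padicNorm p q ≤ padicNorm p q' ↔ padicValRat p q' ≤ padicValRat p q := by
  have h1 : (1 : ℚ) < p := by exact_mod_cast hp.out.one_lt
  rw [norm_val p hq, norm_val p hq', zpow_le_zpow_iff_right₀ h1, neg_le_neg_iff]

variable {k m n : ℕ} {A B : Polynomial ℤ} {α : Fin k → ℤ × ℤ} {γ : Fin m → ℤ × ℤ × ℤ}
  {e : Fin k → ℕ} {f : Fin m → ℕ} {c : ℤ}

lemma HE_disc_ne (hS : Surf n A B α γ e f c) {x : ℤ × ℤ} (hx : FP α γ x ≠ 0) :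
    (HE A B n x).Δ ≠ 0 := by
  rw [HE_disc hS]
  exact_mod_cast mul_ne_zero (mul_ne_zero (by norm_num) hS.c0) (PE_ne hx)

/-- the valuation of the discriminant -/
lemma val_disc (hS : Surf n A B α γ e f c) {x : ℤ × ℤ} (hx : FP α γ x ≠ 0) :
    padicValRat p (HE A B n x).Δ = (((1259712 * c).natAbs.factorization p +
      (FE α γ e f x).factorization p : ℕ) : ℤ) := by
  rw [HE_disc hS, padicValRat.of_int, padicValInt, ← Nat.factorization_def _ hp.out,
    Int.natAbs_mul, PE_natAbs, Nat.factorization_mul _ (FE_ne hx)]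
  · rfl
  · rw [Int.natAbs_ne_zero]
    exact mul_ne_zero (by norm_num) hS.c0

lemma den_int (z : ℤ) : ¬ p ∣ (z : ℚ).den := by
  rw [Rat.den_intCast]
  exact hp.out.not_dvd_one

lemma HE_int (x : ℤ × ℤ) : PInt p (HE A B n x) := by
  have h0 : ¬ p ∣ (0 : ℚ).den := by
    have := den_int p 0
    simpa using this
  refine ⟨h0, h0, h0, ?_, ?_⟩
  · have := den_int p (-27 * hom A (4 * n) x)
    push_cast at this
    exact this
  · have := den_int p (-54 * hom B (6 * n) x)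
    push_cast at this
    exact this

/-- the minimum is attained -/
lemma locMin_mem (hS : Surf n A B α γ e f c) {x : ℤ × ℤ} (hx : FP α γ x ≠ 0) :
    ∃ C : WeierstrassCurve.VariableChange ℚ, PInt p (C • HE A B n x) ∧
      padicValRat p (C • HE A B n x).Δ = (locMin p (HE A B n x) : ℤ) := by
  have h : (locMin p (HE A B n x)) ∈ {v : ℕ | ∃ W : WeierstrassCurve ℚ, Iso (HE A B n x) W ∧
      PInt p W ∧ padicValRat p W.Δ = v} :=
    Nat.sInf_mem ⟨_, HE A B n x, ⟨1, one_smul _ _⟩, HE_int p x, val_disc p hS hx⟩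
  obtain ⟨W, ⟨C, rfl⟩, h1, h2⟩ := h
  exact ⟨C, h1, h2⟩

lemma locMin_le {E W : WeierstrassCurve ℚ} (h1 : Iso E W) (h2 : PInt p W) {v : ℕ}
    (h3 : padicValRat p W.Δ = v) : locMin p E ≤ v :=
  Nat.sInf_le ⟨W, h1, h2, h3⟩

lemma locMin_le_val (hS : Surf n A B α γ e f c) {x : ℤ × ℤ} (hx : FP α γ x ≠ 0) :
    locMin p (HE A B n x) ≤ (1259712 * c).natAbs.factorization p +
      (FE α γ e f x).factorization p :=
  locMin_le p ⟨1, one_smul _ _⟩ (HE_int p x) (val_disc p hS hx)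

end

end Pool.Agent.L0h81.TS
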